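import Mathlib
import Pool.Agent.U873.MV6.CWF
import Pool.Agent.U608.MV5.KM
import Pool.Agent.U398.MV.Stm6

/-!
# Project MV6 (helper398), package ZF: the value at the zero against the values before the zero
-/

set_option autoImplicit false

namespace Pool.Agent.U427.MV6

open MeasureTheory Filter Topology Set Pool.Agent.U398.MV
open Pool.Agent.U251.MV4

noncomputable section

/-- the comparison at one point (as `Pool.Agent.U608.MV5.KM.point`, far shifts) -/
lemma pt {N : ℝ → ℕ} (hN : Monotone N) {T : ℝ} (hT : 40 ≤ T) (hw : 2 * Real.pi / Real.log T ≤ 7)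
    {γ t y : ℝ} (h1 : γ - 2 * Real.pi / Real.log T ≤ t) (h2 : t ≤ γ) (hγ1 : T < γ)
    (hγ2 : γ ≤ 2 * T) (hy : |y| ≤ T / 4) :
    |sg N (γ + y) - sg N (t + y)| ≤
      |sg N (t + (y + 2 * Real.pi / Real.log T)) - sg N (t + y)| + 2 := by
  have hp4 := Real.pi_lt_four
  have hw0 : 0 < 2 * Real.pi / Real.log T :=
    div_pos (by positivity) (Real.log_pos (by linarith))
  set w := 2 * Real.pi / Real.log T with hwdef
  obtain ⟨hy1, hy2⟩ := abs_le.1 hy
  have m1 : (N (t + y) : ℝ) ≤ N (γ + y) := by exact_mod_cast hN (by linarith)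
  have m2 : (N (γ + y) : ℝ) ≤ N (t + (y + w)) := by exact_mod_cast hN (by linarith)
  have i1 : |Mf (γ + y) - Mf (t + y)| ≤ 1 :=
    Pool.Agent.U608.MV5.KM.Mf_inc (T := T) (by linarith) (by linarith) (by linarith) (by linarith)
      (by linarith)
  have i2 : |Mf (t + (y + w)) - Mf (t + y)| ≤ 1 :=
    Pool.Agent.U608.MV5.KM.Mf_inc (T := T) (by linarith) (by linarith) (by linarith) (by linarith)
      (by linarith)
  have e1 : sg N (γ + y) - sg N (t + y) =
      ((N (γ + y) : ℝ) - N (t + y)) - (Mf (γ + y) - Mf (t + y)) := by unfold sg; ring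
  have e2 : (N (t + (y + w)) : ℝ) - N (t + y) =
      (sg N (t + (y + w)) - sg N (t + y)) + (Mf (t + (y + w)) - Mf (t + y)) := by unfold sg; ring
  have e3 := le_abs_self (sg N (t + (y + w)) - sg N (t + y))
  obtain ⟨a1, a2⟩ := abs_le.1 i1
  obtain ⟨b1, b2⟩ := abs_le.1 i2
  rw [e1, abs_le]
  have e4 := abs_nonneg (sg N (t + (y + w)) - sg N (t + y))
  constructor
  · linarith
  · linarith

lemma pow2 (n : ℕ) {a b : ℝ} (ha : 0 ≤ a) (hb : 0 ≤ b) :
    (a + b) ^ n ≤ 2 ^ n * (a ^ n + b ^ n) := by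
  have h1 : 0 ≤ a ^ n := pow_nonneg ha n
  have h2 : 0 ≤ b ^ n := pow_nonneg hb n
  have h3 : (0 : ℝ) ≤ 2 ^ n := by positivity
  rcases le_total a b with h | h
  · calc (a + b) ^ n ≤ (2 * b) ^ n := pow_le_pow_left₀ (by linarith) (by linarith) n
      _ = 2 ^ n * b ^ n := mul_pow _ _ _
      _ ≤ _ := mul_le_mul_of_nonneg_left (by linarith) h3
  · calc (a + b) ^ n ≤ (2 * a) ^ n := pow_le_pow_left₀ (by linarith) (by linarith) n
      _ = 2 ^ n * a ^ n := mul_pow _ _ _
      _ ≤ _ := mul_le_mul_of_nonneg_left (by linarith) h3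

/-- **package ZF** -/
theorem t_ZF : J_ZF := by
  intro hPU N g C1 hC1 hcnt hmom hF p
  obtain ⟨Cu, Tu, hCu, hTu, hU⟩ := hPU N g C1 hcnt hmom
  obtain ⟨Ca, Ta, hCa, hTa, hMa⟩ := hF.1 (2 * p) (2 * Real.pi)
  have hp := Real.pi_pos
  have hp4 := Real.pi_lt_d2
  obtain ⟨E, hE⟩ : ∃ E : ℝ, E = (1 + Real.log (1 + 2 * Real.pi)) ^ (2 * p) := ⟨_, rfl⟩
  have hE0 : 0 ≤ E := by
    rw [hE]
    have := Real.log_nonneg (show (1 : ℝ) ≤ 1 + 2 * Real.pi by linarith)
    positivity
  obtain ⟨K, hK⟩ : ∃ K : ℝ, K = 2 ^ (2 * p) := ⟨_, rfl⟩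
  have hK0 : 0 < K := by rw [hK]; positivity
  obtain ⟨C', hC'⟩ : ∃ C' : ℝ, C' = 9 / 2 + 4 * K ^ 2 * (Ca * E + 9 / 4 * K ^ 2) := ⟨_, rfl⟩
  have hC'0 : 0 < C' := by rw [hC']; positivity
  refine ⟨Cu * Real.sqrt C', max 40 (max Tu Ta), by positivity,
    (by norm_num : (10 : ℝ) ≤ 40).trans (le_max_left _ _), ?_⟩
  intro T hT m c x hAdm
  obtain ⟨hc1, hc0, hxT⟩ := id hAdm
  have hT40 : 40 ≤ T := (le_max_left _ _).trans hT
  have hTu' : Tu ≤ T := ((le_max_left _ _).trans (le_max_right _ _)).trans hT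
  have hTa' : Ta ≤ T := ((le_max_right _ _).trans (le_max_right _ _)).trans hT
  have hT0 : 0 < T := by linarith
  have hL1 : 1 ≤ Real.log T := by
    rw [Real.le_log_iff_exp_le (by linarith)]
    linarith [Real.exp_one_lt_d9]
  have hL0 : 0 < Real.log T := by linarith
  have hw7 : 2 * Real.pi / Real.log T ≤ 7 := by
    rw [div_le_iff₀ hL0]
    nlinarith
  have hw2 : 2 * Real.pi / Real.log T ≤ 2 * Real.pi := by
    rw [div_le_iff₀ hL0]
    nlinarith
  have hw0 : 0 < 2 * Real.pi / Real.log T := by positivity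
  obtain ⟨w, hw⟩ : ∃ w : ℝ, w = 2 * Real.pi / Real.log T := ⟨_, rfl⟩
  have hwL : w * Real.log T = 2 * Real.pi := by rw [hw]; field_simp
  have hx4 : ∀ i, |x i| ≤ T / 4 := fun i =>
    (hxT i).trans (Pool.Agent.U873.MV6.log3 (by linarith))
  have h34 : 3 * T / 4 ≤ 3 * T := by linarith
  have even : ∀ z : ℝ, 0 ≤ z ^ (2 * p) := fun z => by rw [pow_mul]; positivity
  -- the differences
  have hD : ∀ i, LB fun t => sg N (t + (x i + w)) - sg N (t + x i) := fun i =>
    ((LB_sg hcnt.mono).shift _).sub ((LB_sg hcnt.mono).shift _)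
  obtain ⟨f, hf⟩ : ∃ f : ℝ → ℝ, f = fun t => 1 + ∑ i, |c i| *
    (K * ((sg N (t + (x i + w)) - sg N (t + x i)) ^ (2 * p) + K)) := ⟨_, rfl⟩
  obtain ⟨F, hFd⟩ : ∃ F : ℝ → ℝ, F = fun t => 2 + 2 * ∑ i, |c i| *
    (2 * K ^ 2 * ((sg N (t + (x i + w)) - sg N (t + x i)) ^ (2 * (2 * p)) + K ^ 2)) := ⟨_, rfl⟩
  have hfLB : LB f := by
    rw [hf]
    exact (LB.const 1).add (LB.sum _ fun i _ => ((((hD i).pow _).add (LB.const K)).cmul K).cmul _)
  have hgi : ∀ i, LB fun t => |c i| *
      (2 * K ^ 2 * ((sg N (t + (x i + w)) - sg N (t + x i)) ^ (2 * (2 * p)) + K ^ 2)) := fun i =>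
    ((((hD i).pow _).add (LB.const (K ^ 2))).cmul _).cmul _
  have hFLB : LB F := by
    rw [hFd]
    exact (LB.const 2).add ((LB.sum _ fun i _ => hgi i).cmul 2)
  have hf0 : ∀ t, 0 ≤ f t := by
    intro t
    rw [hf]
    have : 0 ≤ ∑ i, |c i| * (K * ((sg N (t + (x i + w)) - sg N (t + x i)) ^ (2 * p) + K)) :=
      Finset.sum_nonneg fun i _ => mul_nonneg (abs_nonneg _)
        (mul_nonneg hK0.le (add_nonneg (even _) hK0.le))
    linarith
  have hfF : ∀ t, f t ^ 2 ≤ F t := by
    intro t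
    rw [hf, hFd]
    simp only
    obtain ⟨S, hS⟩ : ∃ S : ℝ, S = ∑ i, |c i| *
      (K * ((sg N (t + (x i + w)) - sg N (t + x i)) ^ (2 * p) + K)) := ⟨_, rfl⟩
    have h1 : S ^ 2 ≤ ∑ i, |c i| *
        (2 * K ^ 2 * ((sg N (t + (x i + w)) - sg N (t + x i)) ^ (2 * (2 * p)) + K ^ 2)) := by
      have h2 := jensen (fun i => |c i|)
        (fun i => K * ((sg N (t + (x i + w)) - sg N (t + x i)) ^ (2 * p) + K))
        (by simpa using hc1) (show 1 ≤ 2 by norm_num)
      simp only [abs_abs, sq_abs] at h2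
      rw [← hS] at h2
      refine h2.trans (Finset.sum_le_sum fun i _ => mul_le_mul_of_nonneg_left ?_ (abs_nonneg _))
      obtain ⟨z, hz⟩ : ∃ z : ℝ, z = (sg N (t + (x i + w)) - sg N (t + x i)) ^ (2 * p) := ⟨_, rfl⟩
      have e : (sg N (t + (x i + w)) - sg N (t + x i)) ^ (2 * (2 * p)) = z ^ 2 := by
        rw [hz, ← pow_mul]; congr 1; ring
      rw [e, ← hz, mul_pow]
      have h3 : (z + K) ^ 2 ≤ 2 * (z ^ 2 + K ^ 2) := by nlinarith [sq_nonneg (z - K)]
      have h4 := mul_le_mul_of_nonneg_left h3 (sq_nonneg K)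
      linarith
    rw [← hS]
    nlinarith [sq_nonneg (1 - S)]
  -- the integral
  have hDint : ∀ i, (∫ t in (3 * T / 4)..(3 * T),
      (sg N (t + (x i + w)) - sg N (t + x i)) ^ (2 * (2 * p))) ≤ Ca * T * E := by
    intro i
    have h1 := hMa T hTa' (x i + w) (x i) (by
      refine (abs_add_le _ _).trans ?_
      rw [abs_of_pos (show 0 < w by rw [hw]; exact hw0), hw]
      linarith [hxT i]) (by
      rw [add_sub_cancel_left, abs_of_pos (show 0 < w by rw [hw]; exact hw0), hw]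
      exact hw2)
    rw [add_sub_cancel_left, abs_of_pos (show 0 < w by rw [hw]; exact hw0), hwL, ← hE] at h1
    exact h1
  have hint : (∫ t in (3 * T / 4)..(3 * T), f t ^ 2) ≤ C' * T := by
    calc (∫ t in (3 * T / 4)..(3 * T), f t ^ 2) ≤ ∫ t in (3 * T / 4)..(3 * T), F t :=
          intervalIntegral.integral_mono_on h34 ((hfLB.pow 2).ii _ _) (hFLB.ii _ _)
            fun t _ => hfF t
      _ = (3 * T - 3 * T / 4) * 2 + 2 * ∑ i, |c i| * (2 * K ^ 2 *
          ((∫ t in (3 * T / 4)..(3 * T), (sg N (t + (x i + w)) - sg N (t + x i)) ^ (2 * (2 * p))) +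
            (3 * T - 3 * T / 4) * K ^ 2)) := by
          rw [hFd]
          rw [intervalIntegral.integral_add ((LB.const 2).ii _ _)
            (((LB.sum _ fun i _ => hgi i).cmul 2).ii _ _), intervalIntegral.integral_const,
            smul_eq_mul, intervalIntegral.integral_const_mul,
            intervalIntegral.integral_finsetSum fun i _ => (hgi i).ii _ _]
          congr 2
          refine Finset.sum_congr rfl fun i _ => ?_
          rw [intervalIntegral.integral_const_mul, intervalIntegral.integral_const_mul,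
            intervalIntegral.integral_add (((hD i).pow _).ii _ _) ((LB.const _).ii _ _),
            intervalIntegral.integral_const, smul_eq_mul]
      _ ≤ (3 * T - 3 * T / 4) * 2 + 2 * ∑ i, |c i| * (2 * K ^ 2 *
          (Ca * T * E + (3 * T - 3 * T / 4) * K ^ 2)) := by
          have h5 : ∑ i, |c i| * (2 * K ^ 2 *
              ((∫ t in (3 * T / 4)..(3 * T),
                (sg N (t + (x i + w)) - sg N (t + x i)) ^ (2 * (2 * p))) +
                (3 * T - 3 * T / 4) * K ^ 2)) ≤ ∑ i, |c i| * (2 * K ^ 2 *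
              (Ca * T * E + (3 * T - 3 * T / 4) * K ^ 2)) := by
            refine Finset.sum_le_sum fun i _ => mul_le_mul_of_nonneg_left
              (mul_le_mul_of_nonneg_left ?_ (by positivity)) (abs_nonneg _)
            linarith [hDint i]
          linarith
      _ = (3 * T - 3 * T / 4) * 2 + 2 * ((∑ i, |c i|) * (2 * K ^ 2 *
          (Ca * T * E + (3 * T - 3 * T / 4) * K ^ 2))) := by rw [Finset.sum_mul]
      _ ≤ (3 * T - 3 * T / 4) * 2 + 2 * (1 * (2 * K ^ 2 *
          (Ca * T * E + (3 * T - 3 * T / 4) * K ^ 2))) := by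
          have h6 : 0 ≤ 2 * K ^ 2 * (Ca * T * E + (3 * T - 3 * T / 4) * K ^ 2) := by
            have h7 : 0 ≤ 3 * T - 3 * T / 4 := by linarith
            positivity
          have := mul_le_mul_of_nonneg_right hc1 h6
          linarith
      _ = C' * T := by rw [hC']; ring
  have hPA := hU T hTu' f hf0 hfLB.meas.aestronglyMeasurable (by
    have := ((hfLB.pow 2).ii (3 * T / 4) (3 * T))
    rw [intervalIntegrable_iff_integrableOn_Icc_of_le h34] at this
    exact this)
  -- the comparison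
  have hGLB := LB_Gf hcnt.mono c x
  have hsum : PA N g T (2 * Real.pi / Real.log T)
      (fun n t => (Gf N c x (g n) - Gf N c x t) ^ (2 * p)) ≤
      PA N g T (2 * Real.pi / Real.log T) (fun _ t => f t) := by
    unfold PA
    refine Finset.sum_le_sum fun n hn => ?_
    rw [Finset.mem_Ioc] at hn
    have hn1 : 1 ≤ n := by omega
    have hg2 : g n ≤ 2 * T := (hcnt.gc n hn1 _).2 hn.2
    have hg1 : T < g n := by
      by_contra hcon
      have := (hcnt.gc n hn1 T).1 (not_lt.1 hcon)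
      omega
    refine mul_le_mul_of_nonneg_left ?_ (by positivity)
    refine intervalIntegral.integral_mono_on (by linarith)
      ((((LB.const (Gf N c x (g n))).sub hGLB).pow (2 * p)).ii _ _) (hfLB.ii _ _) fun t ht => ?_
    change (Gf N c x (g n) - Gf N c x t) ^ (2 * p) ≤ f t
    rcases Nat.eq_zero_or_pos p with h0 | h0
    · subst h0
      rw [Nat.mul_zero, pow_zero, hf]
      have : 0 ≤ ∑ i, |c i| * (K * ((sg N (t + (x i + w)) - sg N (t + x i)) ^ (2 * 0) + K)) :=
        Finset.sum_nonneg fun i _ => mul_nonneg (abs_nonneg _)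
          (mul_nonneg hK0.le (add_nonneg (even _) hK0.le))
      linarith
    have e1 : Gf N c x (g n) - Gf N c x t = ∑ i, c i * (sg N (g n + x i) - sg N (t + x i)) := by
      unfold Gf
      rw [← Finset.sum_sub_distrib]
      exact Finset.sum_congr rfl fun i _ => by ring
    have h3 := jensen c (fun i => sg N (g n + x i) - sg N (t + x i)) hc1
      (show 1 ≤ 2 * p by omega)
    rw [← e1, Even.pow_abs (even_two_mul p)] at h3
    refine h3.trans ?_
    rw [hf]
    have h4 : ∑ i, |c i| * |sg N (g n + x i) - sg N (t + x i)| ^ (2 * p) ≤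
        ∑ i, |c i| * (K * ((sg N (t + (x i + w)) - sg N (t + x i)) ^ (2 * p) + K)) := by
      refine Finset.sum_le_sum fun i _ => mul_le_mul_of_nonneg_left ?_ (abs_nonneg _)
      have h5 := pt hcnt.mono hT40 hw7 ht.1 ht.2 hg1 hg2 (hx4 i)
      rw [← hw] at h5
      refine (pow_le_pow_left₀ (abs_nonneg _) h5 _).trans ?_
      refine (pow2 _ (abs_nonneg _) (by norm_num)).trans (le_of_eq ?_)
      rw [Even.pow_abs (even_two_mul p), hK]
    simp only
    linarith
  refine hsum.trans (hPA.trans ?_)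
  have hsq : Real.sqrt (∫ t in (3 * T / 4)..(3 * T), f t ^ 2) ≤ Real.sqrt C' * Real.sqrt T := by
    rw [← Real.sqrt_mul hC'0.le]
    exact Real.sqrt_le_sqrt hint
  calc Cu * Real.log T * Real.sqrt T * Real.sqrt (∫ t in (3 * T / 4)..(3 * T), f t ^ 2) ≤
        Cu * Real.log T * Real.sqrt T * (Real.sqrt C' * Real.sqrt T) :=
        mul_le_mul_of_nonneg_left hsq (by positivity)
    _ = Cu * Real.sqrt C' * ((Real.sqrt T * Real.sqrt T) * Real.log T) := by ring
    _ = Cu * Real.sqrt C' * (T * Real.log T) := by rw [Real.mul_self_sqrt hT0.le]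

end

end Pool.Agent.U427.MV6
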